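import Pool.Agent.Helper27.BG.St4
import Pool.Agent.Helper60.GP.St

/-!
# Project BG: assembly (all modules as hypotheses)
-/

set_option autoImplicit false

namespace Pool.Agent.Helper27.BG

open Pool.Agent.Helper60.GP (IsB JJ)
open Pool.Agent.Helper15.AB (Th)

theorem asm_fin (hLin : StLin) (hBil : StBil) (hFrm : StFrm) (hLm : StLm) (hPrs : StPrs)
    (hMaj : StMaj) (hMrg : StMrg) (hVbd : StVbd) (hTup : StTup) (hTV2 : StTV2)
    (hSWs : StSWs) (hDDw : StDDw) (hMer : StMer) (hErr : StErr) (hOne : StOne) (hMul : StMul)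
    (hCl1 : StCl1) (hCl2 : StCl2)
    (hBVf : StBVf) (hEta : StEta) (hOkw : StOkw) (hMin : StMin) (hVsq : StVsq) (hBlf : StBlf)
    (hMjf : StMjf) (hPtw : StPtw) (hLow : StLow) (hTwo : StTwo)
    (hIrw : StIrw) (hCs1 : StCs1) (hCs2 : StCs2) (hEvi : StEvi) (hEvo : StEvo) (hNum : StNum)
    (hNmr : StNmr) (hFin : StFin)
    (hPNT : Pool.Agent.Helper60.GP.StPNT) (hBump : Pool.Agent.Helper60.GP.StBump)
    (hMod : Pool.Agent.Helper90.MT.StMod) :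
    ∀ H : Finset ℕ, H.card = 49 → (∀ p : ℕ, p.Prime → ∃ r : ℕ, ∀ h ∈ H, ¬ p ∣ r + h) →
    ∃ h ∈ H, ∃ h' ∈ H, h < h' ∧ {n : ℕ | Cons2 n (h' - h)}.Infinite := by
  have hV : VsqC := hVsq hTV2 hErr hMer hCl2 hMul hOne hSWs hDDw hOkw
  have hMinC : MinC := hMin hTup hErr hMer hCl1 hMul hOne hSWs hDDw hLm hOkw hEta
  have hB : BlfC := hBlf hBil hFrm hLm hPrs hVbd hErr hMer hOkw hBVf hEta hV hPNT
  have hM : MjfC := hMjf hMaj hLm hVbd hErr hMer hSWs hDDw hOkw hEta hV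
  have hL : LowC := hLow hLin hPtw hMrg hVbd hOkw hEta hB hM
  have hN : NumR := hNmr hEvi hEvo hIrw hCs1 hCs2 hNum
  exact hFin (hTwo hMinC hL hN hEta hLm hOkw hBump) hMod

/-- the theorem on bounded gaps, from the general theorem and an admissible set -/
theorem asm_240 (hAdm : StAdm)
    (h : ∀ H : Finset ℕ, H.card = 49 → (∀ p : ℕ, p.Prime → ∃ r : ℕ, ∀ h ∈ H, ¬ p ∣ r + h) →
      ∃ h ∈ H, ∃ h' ∈ H, h < h' ∧ {n : ℕ | Cons2 n (h' - h)}.Infinite) :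
    ∃ d : ℕ, 0 < d ∧ d ≤ 240 ∧ {n : ℕ | Cons2 n d}.Infinite := by
  obtain ⟨H, hc, hb, ha⟩ := hAdm
  obtain ⟨a, ha1, b, hb1, hab, hinf⟩ := h H hc ha
  exact ⟨b - a, by omega, by have := hb b hb1; omega, hinf⟩

end Pool.Agent.Helper27.BG
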