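import Pool.Agent.Helper15.AB.M_GA
import Pool.Agent.Helper15.AB.M_AL
import Pool.Agent.Helper15.AB.M_GS
import Pool.Agent.Helper15.AB.M_ML
import Pool.Agent.Helper15.AB.M_FO
import Pool.Agent.Helper15.AB.M_T2
import Pool.Agent.Helper15.AB.M_VA
import Pool.Agent.Helper15.AB.M_T1
import Pool.Agent.Helper15.AB.M_BL
import Pool.Agent.Helper15.AB.M_PH
import Pool.Agent.Helper15.AB.M_RG
import Pool.Agent.Helper15.AB.M_NP
import Pool.Agent.Helper15.AB.M_OR
import Pool.Agent.Helper48.BK.M_SW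
import Pool.Agent.Helper48.BK.M_PsiI
import Pool.Agent.Helper48.BK.M_Psi
import Pool.Agent.Helper48.BK.M_Sie
import Pool.Agent.Helper48.BK.M_Sg
import Pool.Agent.Helper48.BK.M_Sg1
import Pool.Agent.Helper48.BK.M_Sg2
import Pool.Agent.Helper48.BK.M_Real
import Pool.Agent.Helper48.BK.M_Pos
import Pool.Agent.Helper48.BK.M_L1up
import Pool.Agent.Helper48.BK.M_Ldisc
import Pool.Agent.Helper48.BK.M_Est
import Pool.Agent.Helper48.BK.M_NN
import Pool.Agent.Helper48.BK.M_Uns
import Pool.Agent.Helper48.BK.M_Ort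
import Pool.Agent.Helper48.BK.M_Th
import Pool.Agent.Helper48.BK.M_PNT
import Pool.Agent.Helper48.BK.M_PNTs
import Pool.Agent.Helper48.BK.M_Zall
import Pool.Agent.Helper48.BK.M_Zup
import Pool.Agent.Helper48.BK.M_Zlow
import Pool.Agent.Helper48.BK.M_Zcpt
import Pool.Agent.Helper60.GP.M_B0
import Pool.Agent.Helper60.GP.M_B1
import Pool.Agent.Helper60.GP.M_B2
import Pool.Agent.Helper60.GP.M_B3
import Pool.Agent.Helper60.GP.M_B4
import Pool.Agent.Helper60.GP.M_B5
import Pool.Agent.Helper60.GP.M_S2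

/-!
# Project BG: number theory input (Bombieri-Vinogradov, prime number theorem, bumps)
-/

set_option autoImplicit false

namespace Pool.Agent.Helper27.BG.NT

namespace AB
open Pool.Agent.Helper15.AB
theorem bL : StBL := hBL hVA hT1 (hT2 hFO (hML (hAL hGA) hGS))
end AB

namespace BK
open Pool.Agent.Helper48.BK
theorem pos : StPos := hPos hReal
theorem sg : StSg := hSg (hSg1 hLdisc hEst hReal pos hNN) (hSg2 hLdisc hEst hReal pos hNN)
  hReal pos hL1up
theorem zall : StZall := hZall hZup (hZlow hZup) hZcpt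
theorem pnt : StPNT := hPNT (hPNTs zall) hUns
theorem sw : StSW := hSW (hPsiI (hPsi (hSie sg) hUns)) hOrt pnt hTh
end BK

open Pool.Agent.Helper60.GP
open Pool.Agent.Helper15.AB (hPH hRG hNP hOR)
open Pool.Agent.Helper48.BK (hTh)

theorem bv : StBVc := hBVc (hBVw (hSCc hPSum BK.sw hTh) AB.bL hPH hRG hNP hOR)
theorem pnt : StPNT := hPNT hPSum hAP BK.sw hTh
theorem bump : StBump := hBump

end Pool.Agent.Helper27.BG.NT
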