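import Pool.Agent.Helper90.MT.StS

/-!
# Project BG (MP_3ec731_nt, bounded gaps 240): statements, part 1 (finite sieve theory)

Everything is finite and explicit; `α` indexes the sieving primes `pr : α → ℕ`, `ι` the shifts
`sh : ι → ℕ`, an assignment is a function `a : α → Option ι` (see `Helper90.MT.StS`).
Paper proof: /team-store/MP_3ec731-H240.md.
-/

set_option autoImplicit false

noncomputable section

namespace Pool.Agent.Helper27.BG

open Finset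
open Pool.Agent.Helper90.MT (lam mat wt szA prt szU VV DD piDD Ok EqD Avd HH Ytil offD MP MD TT)

section Defs
variable {α ι : Type} [Fintype α] [DecidableEq α] [Fintype ι] [DecidableEq ι]

open Classical in
/-- the linear form; `wt pr sh Y n = LF pr sh Y n ^ 2` by definition -/
def LF (pr : α → ℕ) (sh : ι → ℕ) (Y : (α → Option ι) → ℝ) (n : ℕ) : ℝ :=
  ∑ b, if mat pr sh b n then lam pr Y b else 0

open Classical in
/-- the marginal: sum over the primes assigned to `m` -/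
def Vm (pr : α → ℕ) (m : ι) (Y : (α → Option ι) → ℝ) (a : α → Option ι) : ℝ :=
  if Avd {m} a then VV pr {m} Y a else 0

/-- `∏ (1 + K/p + D/p²) - ∏ (1 + K/p)` -/
def Er (pr : α → ℕ) (K D : ℕ) : ℝ :=
  ∏ i, (1 + (K : ℝ) / pr i + (D : ℝ) / (pr i : ℝ) ^ 2) - ∏ i, (1 + (K : ℝ) / pr i)

/-- `∏ (1 + 1/p)^K - ∏ (1 + K/p)` -/
def Et (pr : α → ℕ) (K : ℕ) : ℝ :=
  ∏ i, (1 + 1 / (pr i : ℝ)) ^ K - ∏ i, (1 + (K : ℝ) / pr i)

end Defs

/-- LIN: the linear form is linear.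
Proof: `lam pr Y b` is a finite sum linear in `Y`; exchange sums. -/
def StLin : Prop := ∀ (α ι : Type) [Fintype α] [DecidableEq α] [Fintype ι] [DecidableEq ι]
  (pr : α → ℕ) (sh : ι → ℕ) (Y Y' : (α → Option ι) → ℝ) (c : ℝ) (n : ℕ),
  LF pr sh (fun a => Y a + Y' a) n = LF pr sh Y n + LF pr sh Y' n ∧
  LF pr sh (fun a => c * Y a) n = c * LF pr sh Y n

/-- BIL: the bilinear form over the primes `n + sh m`.
Proof: as `Helper90.MT.StS2` (module S2): expand both linear forms, exchange the sums over `n` and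
over `(b, b')`, and apply `StCntP` (proved in Helper90/MT/CntP.lean) to each pair with
`lam Y b * lam Y' b' ≠ 0`; pairs with a zero factor contribute nothing. The error is multiplied by
`|lam Y b| * |lam Y' b'|`. -/
def StBil : Prop := ∀ (α ι : Type) [Fintype α] [DecidableEq α] [Fintype ι] [DecidableEq ι]
  (pr : α → ℕ) (sh : ι → ℕ) (W v : ℕ) (m : ι) (Y Y' : (α → Option ι) → ℝ) (M Qm : ℕ)
  (f E : ℕ → ℝ) (X : ℝ), Ok pr sh (Fintype.card ι) W v → (∀ q, 0 ≤ E q) →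
  (∀ n, f n ≠ 0 → n.Prime ∧ n ∈ Ioc M (4 * M) ∧ ∀ i, pr i < n) → sh m ≤ M →
  (∀ q a : ℕ, 1 ≤ q → q ≤ Qm → a.Coprime q →
    |∑ n ∈ (Ioc M (4 * M)).filter (fun n => n ≡ a [MOD q]), f n - X / q.totient| ≤ E q) →
  (∀ b b', lam pr Y b ≠ 0 → lam pr Y' b' ≠ 0 → W * szU pr b b' ≤ Qm) →
  |∑ n ∈ (range (4 * M + 1)).filter (fun n => n ≡ v [MOD W]),
      f (n + sh m) * (LF pr sh Y n * LF pr sh Y' n) -
    X / W.totient * ∑ b, ∑ b', (∏ i, MP m (pr i) (b i) (b' i)) * (lam pr Y b * lam pr Y' b')| ≤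
    ∑ b, ∑ b', |lam pr Y b| * |lam pr Y' b'| * E (W * szU pr b b')

/-- FRM: the prime form is nearly diagonal.
Proof: `lam pr Y b = ∑ a, (∏ i, TT (pr i) (b i) (a i)) * Y a`, so the double sum is
`∑ a a', (∏ i, Q i (a i) (a' i)) * Y a * Y' a'` with the local matrix
`Q i o o' = ∑ x y, MP m p x y * TT p x o * TT p y o'` (exchange of sums and `Finset.prod_univ_sum`
/ `Fintype.piFinset`, as in `StVar`, Helper90/MT/Var.lean; that statement has one `Y`, here one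
repeats its proof with two). For `o, o'` different from `some m` (only these occur, since `Y, Y'`
are supported on `Avd {m}`): `Q none none = 1`, `Q none (some h) = 1/p - 1/(p-1)`,
`Q (some h) (some h') = 1/p² - 2/(p(p-1)) + [h = h']/(p-1)`. Let `D o o' = 1, 1/p, 0` be the
diagonal matrix; `∑_{o,o' ≠ some m} |Q - D| ≤ (3K²+4K)/p²` (p ≥ 2) and `∑ |D| = 1 + (K-1)/p`
(the value `some m` does not occur; this `K - 1` is important). Expanding
`∏ (D + E) - ∏ D` and taking absolute values,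
`∑_{a,a'} |∏ Q - ∏ D| ≤ ∏ (‖D‖ + ‖E‖) - ∏ ‖D‖ ≤ Er pr (K-1) (3K²+4K)` (the difference is
increasing in `‖E‖`), and `∏ i, D (a i) (a' i) = [a = a'] / szA a`. -/
def StFrm : Prop := ∀ (α ι : Type) [Fintype α] [DecidableEq α] [Fintype ι] [DecidableEq ι]
  (pr : α → ℕ) (m : ι) (Y Y' : (α → Option ι) → ℝ) (B B' : ℝ), (∀ i, (pr i).Prime) →
  (∀ a, |Y a| ≤ B) → (∀ a, |Y' a| ≤ B') → (∀ a, Y a ≠ 0 → Avd {m} a) →
  (∀ a, Y' a ≠ 0 → Avd {m} a) →
  |∑ b, ∑ b', (∏ i, MP m (pr i) (b i) (b' i)) * (lam pr Y b * lam pr Y' b') -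
    ∑ a, Y a * Y' a / szA pr a| ≤
    B * B' * Er pr (Fintype.card ι - 1) (3 * Fintype.card ι ^ 2 + 4 * Fintype.card ι)

/-- LAM: bounds for the coefficients, signed version of `Helper90.MT.StLam`.
Proof: `TT p (some h) (some h) = -1`, `TT p none (some h) = 1/p ≥ 0`, so for fixed `b` all the
products `∏ TT (pr i) (b i) (a i)` have the same sign `(-1)^{#{i : b i ≠ none}}` or vanish; hence
`|lam pr Y b| ≤ |lam pr |Y| b|`; apply `StLam` (Helper90/MT/Lam.lean) to `|Y|`. For the support: if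
`szA pr b > Z` all `a` with nonzero product contain `b`, so `Y a = 0`. -/
def StLm : Prop := ∀ (α ι : Type) [Fintype α] [DecidableEq α] [Fintype ι] [DecidableEq ι]
  (pr : α → ℕ) (Y : (α → Option ι) → ℝ) (B Z : ℝ), (∀ i, (pr i).Prime) →
  Function.Injective pr → 1 ≤ Z → (∀ a, |Y a| ≤ B) → (∀ a, Y a ≠ 0 → (szA pr a : ℝ) ≤ Z) →
  (∀ b, |lam pr Y b| ≤ B * (1 + Real.log Z) ^ Fintype.card ι) ∧
  (∀ b, lam pr Y b ≠ 0 → (szA pr b : ℝ) ≤ Z) ∧
  ∑ b, |lam pr Y b| ≤ B * Z * (1 + Real.log Z) ^ (2 * Fintype.card ι)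

/-- PRS: sums over pairs of assignments with two different coefficient families.
Proof: identical to `Helper90.MT.StPairs` (Helper90/MT/Pairs.lean), using
`szU b b' ≤ szA b * szA b' ≤ Z * Z'`. -/
def StPrs : Prop := ∀ (α ι : Type) [Fintype α] [DecidableEq α] [Fintype ι] [DecidableEq ι]
  (pr : α → ℕ) (lm lm' : (α → Option ι) → ℝ) (B B' Z Z' : ℝ) (W Q : ℕ) (E : ℕ → ℝ),
  (∀ i, (pr i).Prime) → Function.Injective pr → 0 < W → (∀ b, |lm b| ≤ B) → (∀ b, |lm' b| ≤ B') →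
  (∀ b, lm b ≠ 0 → (szA pr b : ℝ) ≤ Z) → (∀ b, lm' b ≠ 0 → (szA pr b : ℝ) ≤ Z') →
  W * (Z * Z') ≤ Q → (∀ q, 0 ≤ E q) →
  ∑ b, ∑ b', |lm b| * |lm' b'| * E (W * szU pr b b') ≤
    B * B' * ∑ q ∈ Icc 1 Q, (((Fintype.card ι + 1) ^ 2 : ℕ) : ℝ) ^ q.primeFactors.card * E q

/-- MAJ: the Selberg majorant.
Proof: let `U' = Ytil pr {m} R' U`. For `b` avoiding `m`, `lam pr U' b = lam pr U b` (`StTil1`,
Helper90/MT/Til1.lean), and if no sieving prime divides `n + sh m` then only such `b` are matched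
at `n`: `LF U n = LF U' n`. Enlarge the sum to all `n ≡ v [MOD W]` (terms `≥ 0`) and apply
`StS1` (Helper90/MT/S1.lean). `StTil2`: `∑ U'²/szA = ∑_{a avoids m} (VV U a)² / (HH a * szA a)` and
`VV pr {m} U a = U a` for `a` avoiding `m` (only `c = a` contributes because `U` is supported on
`Avd {m}`). `StHlow` (`#D = 1`):
`(1 - ∑ 1/p²) * S' ≤ HH a * ∏_{i : a i ≠ none} (1 + 1/p)`. Then
`∑_a ∏_{a i ≠ none}(1 + 1/p) U(a)²/szA a ≤ ∑ U²/szA + B² * ∑_a (∏_{a i ≠ none}(1 + 1/p) - 1)/szA a`,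
the last sum over the `a` avoiding `m` only, and for these `∑_a ∏_{a i ≠ none} (1+1/p)/szA a =
∏ (1 + (K-1)/p + (K-1)/p²)`, `∑_a 1/szA a = ∏ (1 + (K-1)/p)` (the `K - 1` is important).
Finally `|U'| ≤ B` (`HH ≥ 1`: the term `c = none`), `U' e ≠ 0 → szA e ≤ Z * R'`, and `StLm` bounds
`∑ |lam U'|`. -/
def StMaj : Prop := ∀ (α ι : Type) [Fintype α] [DecidableEq α] [Fintype ι] [DecidableEq ι]
  (pr : α → ℕ) (sh : ι → ℕ) (W v : ℕ) (m : ι) (U : (α → Option ι) → ℝ) (N : Finset ℕ) (η : ℕ → ℝ)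
  (X V B Z R' : ℝ), Ok pr sh (Fintype.card ι) W v → 0 ≤ X → 0 ≤ V → EqD N η X V →
  (∀ n, 0 ≤ η n) → (∀ a, |U a| ≤ B) → (∀ a, U a ≠ 0 → Avd {m} a) →
  (∀ a, U a ≠ 0 → (szA pr a : ℝ) ≤ Z) → 1 ≤ Z → 1 ≤ R' → ∑ i, 1 / (pr i : ℝ) ^ 2 < 1 →
  (open Classical in
  ∑ n ∈ N.filter (fun n => n ≡ v [MOD W] ∧ ∀ i, ¬ pr i ∣ n + sh m), η n * LF pr sh U n ^ 2 ≤
    X / W * (((1 - ∑ i, 1 / (pr i : ℝ) ^ 2) *
      ∑ d ∈ (DD pr).filter (fun d : ℕ => (d : ℝ) ≤ R'), 1 / (d : ℝ))⁻¹ *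
      (∑ a, U a ^ 2 / szA pr a + B ^ 2 * Er pr (Fintype.card ι - 1) (Fintype.card ι))) +
    V * (B * (Z * R') * (1 + Real.log (Z * R')) ^ (2 * Fintype.card ι)) ^ 2)

/-- MRG: passing to the marginal.
Proof: only assignments `b` avoiding `m` are matched at `n`; for these `lam pr (Vm pr m Y) b =
lam pr Y b`: this is `StTil1` with `D = {m}`, `R' = 1` (then `prt e m ≤ 1` iff `e` avoids `m`,
`HH pr {m} 1 a = 1`), or directly: split the sum over `a` defining `lam Y b` according to the part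
of `a` avoiding `m`. -/
def StMrg : Prop := ∀ (α ι : Type) [Fintype α] [DecidableEq α] [Fintype ι] [DecidableEq ι]
  (pr : α → ℕ) (sh : ι → ℕ) (m : ι) (Y : (α → Option ι) → ℝ) (n : ℕ), (∀ i, (pr i).Prime) →
  (∀ i, ¬ pr i ∣ n + sh m) → LF pr sh Y n = LF pr sh (Vm pr m Y) n

/-- VBD: trivial bounds for the marginal.
Proof: `VV pr {m} Y a = ∑_c (∏ 1/p) Y(c)` over the extensions `c` of `a` by primes assigned to `m`;
`∑_c ∏ 1/p = ∏_{a i = none} (1 + 1/p) ≤ ∏ (1 + 1/p)`; an extension has `szA c ≥ szA a`. -/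
def StVbd : Prop := ∀ (α ι : Type) [Fintype α] [DecidableEq α] [Fintype ι] [DecidableEq ι]
  (pr : α → ℕ) (m : ι) (Y : (α → Option ι) → ℝ) (B Z : ℝ), (∀ i, (pr i).Prime) → 0 ≤ B →
  (∀ a, |Y a| ≤ B) → (∀ a, Y a ≠ 0 → (szA pr a : ℝ) ≤ Z) →
  (∀ a, |Vm pr m Y a| ≤ B * ∏ i, (1 + 1 / (pr i : ℝ))) ∧
  (∀ a, Vm pr m Y a ≠ 0 → Avd {m} a ∧ (szA pr a : ℝ) ≤ Z)

/-- TUP: from assignments to tuples.
Proof: `a ↦ prt pr a` is injective onto the pairwise coprime tuples of `piDD ι pr`, with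
`szA pr a = ∏ h, prt pr a h` (see `prt_inj` etc. in Helper90/MT/Lam.lean, `LossP.lean`). The
remaining tuples contribute at most `B * (∑_{all tuples} 1/∏x - ∑_a 1/szA a)`, and the two sums are
`∏ (1 + 1/p)^K` and `∏ (1 + K/p)`. -/
def StTup : Prop := ∀ (α ι : Type) [Fintype α] [DecidableEq α] [Fintype ι] [DecidableEq ι]
  (pr : α → ℕ) (G : (ι → ℕ) → ℝ) (B : ℝ), (∀ i, (pr i).Prime) → Function.Injective pr → 0 ≤ B →
  (∀ x, |G x| ≤ B) →
  |∑ a, G (prt pr a) / szA pr a - ∑ x ∈ piDD ι pr, G x / ∏ h, (x h : ℝ)| ≤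
    B * Et pr (Fintype.card ι)

open Classical in
/-- TV2: the square of the marginal as a sum over tuples with `K + 1` entries.
Proof: expand `Vm(a)² = ∑_{c,c'} Y(a ∪ c) Y(a ∪ c')/(c c')`, `c, c'` products of sieving primes
coprime to `a`. With `x` the tuple of parts of `a` (`x m = 1`) the left hand sum runs over the
`(x, c, c')` with `x` pairwise coprime and `c, c'` coprime to all `x h`, the right hand sum over
all `(x, c, c')`. All terms are bounded by `B²/(∏ x h · c · c')` and the triples missing on the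
left are not pairwise coprime as `(K+1)`-tuples (`K - 1` entries `x h`, `h ≠ m`, and `c`, `c'`), so
the difference is at most `b B² * Et pr (K+1)` (the full sum of `1/(∏x·c·c')` is `∏ (1+1/p)^{K+1}`,
the sum over pairwise coprime tuples is `∏ (1 + (K+1)/p)`). -/
def StTV2 : Prop := ∀ (α ι : Type) [Fintype α] [DecidableEq α] [Fintype ι] [DecidableEq ι]
  (pr : α → ℕ) (m : ι) (G φ : (ι → ℕ) → ℝ) (B b : ℝ), (∀ i, (pr i).Prime) →
  Function.Injective pr → 0 ≤ B → 0 ≤ b → (∀ x, |G x| ≤ B) → (∀ x, |φ x| ≤ b) →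
  |∑ a, φ (prt pr a) * Vm pr m (fun a => G (prt pr a)) a ^ 2 / szA pr a -
    ∑ x ∈ (piDD ι pr).filter (fun x => x m = 1),
      φ x * (∑ c ∈ DD pr, G (Function.update x m c) / c) ^ 2 / ∏ h, (x h : ℝ)| ≤
    b * B ^ 2 * Et pr (Fintype.card ι + 1)

end Pool.Agent.Helper27.BG
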