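import Pool.Agent.Helper27.BG.St1

/-!
# Project BG: statements, part 2 (sums over squarefree numbers, passage to volumes)

`W` is the modulus of the W-trick, `M` the large parameter, `RR M = M^0.2499` the unit of the
logarithmic scale, the sieving primes are the `p ≤ RR M ^ 2` not dividing `W`. All sums over tuples
of squarefree products of sieving primes, weighted by `1/∏ x_h`, are compared with
`SS W M ^ K` times a volume, where `SS W M = φ(W)/W * log (RR M)`.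
-/

set_option autoImplicit false

noncomputable section

namespace Pool.Agent.Helper27.BG

open Finset MeasureTheory
open Pool.Agent.Helper90.MT (DD piDD SW)

/-- unit of the logarithmic scale -/
def RR (M : ℕ) : ℝ := (M : ℝ) ^ (2499 / 10000 : ℝ)

open Classical in
/-- the sieving primes -/
def Pw (W M : ℕ) : Finset ℕ :=
  (range (M + 1)).filter (fun p => p.Prime ∧ (p : ℝ) ≤ (M : ℝ) ^ (2499 / 5000 : ℝ) ∧ ¬ p ∣ W)

/-- the sieving primes as a family -/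
def pw (W M : ℕ) : Pw W M → ℕ := fun i => (i : ℕ)

/-- normalised size -/
def ud (M d : ℕ) : ℝ := Real.log d / Real.log (RR M)

/-- normalising factor -/
def SS (W M : ℕ) : ℝ := (W.totient : ℝ) / W * Real.log (RR M)

/-- cell of a normalised size, 1000 cells per unit -/
def cellN (M d : ℕ) : ℕ := ⌊1000 * ud M d⌋₊

/-- cell of the total size of a tuple -/
def totN {κ : Type} [Fintype κ] (M : ℕ) (x : κ → ℕ) : ℕ := ⌊1000 * ∑ h, ud M (x h)⌋₊

/-- `W` contains all the primes up to `w` -/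
def Dv (w W : ℕ) : Prop := 0 < W ∧ ∀ p : ℕ, p.Prime → p ≤ w → p ∣ W

/-- SWS: squarefree numbers coprime to `W`, with the constant.
Proof: the asymptotic formula with some `c` is `Helper90.MT.StSW` (theorem in SWa.lean). Upper
bound for `c`: `SW W z ≤ ∑_{d ≤ z, (d,W)=1} 1/d = φ(W)/W log z + O_W(1)` (periodicity). Lower
bound: every integer coprime to `W` is `e² s`, `s` squarefree, so
`∑_{d ≤ z, (d,W)=1} 1/d ≤ (∑_{(e,W)=1} 1/e²) * SW W z`, and all `e > 1` coprime to `W` are `> w`, so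
the factor is `≤ 1 + 1/w`; hence `c ≥ φ(W)/W / (1 + 1/w) ≥ (1 - 2/w) φ(W)/W`. -/
def StSWs : Prop := ∀ W : ℕ, 0 < W → ∃ c C : ℝ, 0 < c ∧ c ≤ (W.totient : ℝ) / W ∧
  (∀ w : ℕ, 1 ≤ w → Dv w W → (1 - 2 / (w : ℝ)) * ((W.totient : ℝ) / W) ≤ c) ∧
  ∀ z : ℝ, 1 ≤ z → |SW W z - c * Real.log z| ≤ C

/-- DDW: products of sieving primes below `RR M ^ 2` are all the squarefree numbers coprime to
`W`. Proof: as Helper90/MT/DDm.lean. -/
def StDDw : Prop := ∀ (W M : ℕ) (z : ℝ), 0 < W → 1 ≤ z → z ≤ (M : ℝ) ^ (2499 / 5000 : ℝ) →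
  ∑ d ∈ (DD (pw W M)).filter (fun d : ℕ => (d : ℝ) ≤ z), 1 / (d : ℝ) = SW W z

/-- MER: Mertens' product, upper bound.
Proof: `∏_{p ≤ y} (1 + 1/p) ≤ exp (∑ 1/p)` and `∑_{p ≤ y} 1/p ≤ log log y + C` (partial summation
from `∑_{p ≤ y} log p / p ≤ log y + C`, which is `StM1` of Helper60/GP, theorem pM1 / hM1; check
also for existing lemmas in Helper60/GP/M_M5.lean, Helper18/TR, Helper48/BK). Then
`∏_{p ≤ y, p ∤ W} (1+1/p) = ∏_{p ≤ y}(1+1/p) * ∏_{p ∣ W} (1+1/p)⁻¹` once `y` exceeds all prime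
factors of `W`, and `∏_{p ∣ W} (1+1/p)⁻¹ = ∏ (1-1/p) * ∏ (1-1/p²)⁻¹ ≤ 2 φ(W)/W`. Here
`y = M^0.4998 = RR M ^ 2`, `log y = 2 log (RR M)`. -/
def StMer : Prop := ∃ C : ℝ, 0 < C ∧ ∀ W : ℕ, 0 < W → ∃ M₁ : ℕ, ∀ M ≥ M₁,
  ∏ i, (1 + 1 / (pw W M i : ℝ)) ≤ C * SS W M

/-- ERR: the error products are small.
Proof: `1 + K/p + D/p² ≤ (1+K/p)(1+D/p²)`, so `Er ≤ ∏(1+K/p) * (∏(1+D/p²) - 1) ≤
(∏ (1+1/p))^K * (exp(D ∑_{p > w} 1/p²) - 1) ≤ (C SS)^K * (exp(D/w) - 1)` by MER. For `Et` use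
`(1+1/p)^K ≤ 1 + K/p + 2^K/p²` (binomial theorem), so `Et pr K ≤ Er pr K (2^K)`. -/
def StErr : Prop := StMer → ∀ (K D : ℕ) (ε : ℝ), 0 < ε → ∃ w₀ : ℕ, ∀ w ≥ w₀, ∀ W : ℕ, Dv w W →
  ∃ M₁ : ℕ, ∀ M ≥ M₁, Er (pw W M) K D ≤ ε * SS W M ^ K ∧ Et (pw W M) K ≤ ε * SS W M ^ K

open Classical in
/-- ONE: one-dimensional discrepancy, uniformly for intervals.
Proof: an order connected `E ⊆ [0,2)` is an interval with end points `a ≤ b` (inf and sup),
each end point belonging to `E` or not. By DDW (with `z = RR M ^ b`) and SWS the sum over the `d` with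
`a < ud M d ≤ b` is `c log(RR M) (b - a) + O(2C)`; end points change it by at most `1` each
(`ud M` is injective on positive integers, `1/d ≤ 1`). And `c log(RR M) (b-a)` differs from
`SS (b-a)` by at most `(2/w) * 2 * SS`. So the error is `≤ 2C + 2 + (4/w) SS ≤ (5/w) SS` for large
`M`. -/
def StOne : Prop := StSWs → StDDw → ∀ w : ℕ, 1 ≤ w → ∀ W : ℕ, Dv w W → ∃ M₁ : ℕ, ∀ M ≥ M₁,
  ∀ E : Set ℝ, E.OrdConnected → E ⊆ Set.Ico 0 2 →
  |∑ d ∈ DD (pw W M), (if ud M d ∈ E then 1 / (d : ℝ) else 0) - SS W M * (volume E).toReal| ≤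
    5 / w * SS W M

open Classical in
/-- MUL: several variables.
Proof: induction on the number of coordinates (first `κ = Fin K`, then transport along an
equivalence). For `K + 1`: split off the coordinate `0`. For fixed `x₀` apply the induction
hypothesis to the section `A_{u(x₀)}`: main term `S^K vol(A_{u(x₀)})`, error
`K δ (2S+δ)^{K-1}`, and `∑ 1/x₀` over `x₀` with `u x₀ ∈ [0,2)` is `≤ 2S + δ`. Then
`∑_{x₀} vol(A_{u(x₀)})/x₀ = ∫_{t ∈ [0,2)^K} (∑_{x₀} [u x₀ ∈ A^t]/x₀) dt`, the section `A^t ⊆ [0,2)` is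
order connected, so this is `∫ (S vol(A^t) + O(δ)) dt = S vol(A) + O(2^K δ)` (Fubini:
`MeasureTheory.volume_preserving_piFinSuccAbove`). The errors add up:
`2^K δ S^K + (2S+δ) K δ (2S+δ)^{K-1} ≤ (K+1) δ (2S+δ)^K`. -/
def StMul : Prop := ∀ (α κ : Type) [Fintype α] [DecidableEq α] [Fintype κ] [DecidableEq κ]
  (pr : α → ℕ) (u : ℕ → ℝ) (S δ : ℝ), 0 ≤ S → 0 ≤ δ →
  (∀ E : Set ℝ, E.OrdConnected → E ⊆ Set.Ico 0 2 →
    |∑ d ∈ DD pr, (if u d ∈ E then 1 / (d : ℝ) else 0) - S * (volume E).toReal| ≤ δ) →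
  ∀ A : Set (κ → ℝ), MeasurableSet A → (∀ x ∈ A, ∀ h, x h ∈ Set.Ico (0 : ℝ) 2) →
  (∀ (h : κ) (x : κ → ℝ), {s : ℝ | Function.update x h s ∈ A}.OrdConnected) →
  |∑ x ∈ piDD κ pr, (if (fun h => u (x h)) ∈ A then (∏ h, (x h : ℝ))⁻¹ else 0) -
    S ^ Fintype.card κ * (volume A).toReal| ≤
    Fintype.card κ * δ * (2 * S + δ) ^ (Fintype.card κ - 1)

/-- cell with prescribed cells of the coordinates and of the sum -/
def cs1 {κ : Type} [Fintype κ] (i : κ → ℕ) (t : ℕ) : Set (κ → ℝ) :=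
  {u | (∀ h, 0 ≤ u h ∧ ⌊1000 * u h⌋₊ = i h) ∧ ⌊1000 * ∑ h, u h⌋₊ = t}

/-- cell for the square of the marginal in direction `m`: `none` is the second copy of the
variable `m` -/
def cs2 {ι : Type} [Fintype ι] [DecidableEq ι] (m : ι) (i : ι → ℕ) (i' t0 t1 t2 : ℕ) :
    Set (Option ι → ℝ) :=
  {u | (∀ h, 0 ≤ u h) ∧ (∀ h : ι, ⌊1000 * u (some h)⌋₊ = i h) ∧ ⌊1000 * u none⌋₊ = i' ∧
    ⌊1000 * ∑ h ∈ univ.erase m, u (some h)⌋₊ = t0 ∧ ⌊1000 * ∑ h, u (some h)⌋₊ = t1 ∧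
    ⌊1000 * (∑ h ∈ univ.erase m, u (some h) + u none)⌋₊ = t2}

/-- CL1: sums of cell functions over tuples.
Proof: `Γ (cells) (tot) = ∑_{i,t} Γ i t [u(x) ∈ cs1 i t]` (finite sum, only `i h < T`, `t < T`
matter; for `x` in `piDD` all `ud M (x h) ≥ 0`). The sets `cs1 i t` with `i h < T ≤ 2000` are
measurable, contained in `[0,2)^κ`, and their one-dimensional sections are order connected (`floor`
is monotone). Apply MUL with `u = ud M`, `S = SS W M`, `δ = (5/w) SS` (ONE):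
the error is `≤ (∑ |Γ|) K (5/w) (2 + 5/w)^{K-1} SS^K`. -/
def StCl1 : Prop := StMul → StOne → StSWs → StDDw →
  ∀ (κ : Type) [Fintype κ] [DecidableEq κ] (Γ : (κ → ℕ) → ℕ → ℝ) (T : ℕ), T ≤ 2000 →
  (∀ i t, Γ i t ≠ 0 → (∀ h, i h < T) ∧ t < T) → ∀ ε : ℝ, 0 < ε → ∃ w₀ : ℕ, ∀ w ≥ w₀, ∀ W : ℕ,
  Dv w W → ∃ M₁ : ℕ, ∀ M ≥ M₁,
  |∑ x ∈ piDD κ (pw W M), Γ (fun h => cellN M (x h)) (totN M x) / ∏ h, (x h : ℝ) -
    SS W M ^ Fintype.card κ * ∑ i ∈ Fintype.piFinset (fun _ : κ => range T), ∑ t ∈ range T,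
      Γ i t * (volume (cs1 i t)).toReal| ≤ ε * SS W M ^ Fintype.card κ

/-- CL2: sums of squares of marginals.
Proof: expand the square; the sum becomes a sum over `y ∈ piDD (Option ι)`, `y (some h) = x h` for
`h ≠ m`, `y (some m) = c`, `y none = c'`; `x m = 1` has `ud M 1 = 0`. As in CL1 decompose into cells
`cs2 m i i' t0 t1 t2` of `Option ι → ℝ` (measurable, in `[0,2)^{Option ι}`, order connected
sections) and apply MUL with `κ = Option ι`, `card = card ι + 1`. (`t0 ≤ t1 < T`.) -/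
def StCl2 : Prop := StMul → StOne → StSWs → StDDw →
  ∀ (ι : Type) [Fintype ι] [DecidableEq ι] (m : ι) (Γ : (ι → ℕ) → ℕ → ℝ) (φ : ℕ → ℝ) (T : ℕ),
  T ≤ 2000 → (∀ i t, Γ i t ≠ 0 → (∀ h, i h < T) ∧ t < T) → ∀ ε : ℝ, 0 < ε → ∃ w₀ : ℕ, ∀ w ≥ w₀,
  ∀ W : ℕ, Dv w W → ∃ M₁ : ℕ, ∀ M ≥ M₁,
  (open Classical in
  |∑ x ∈ (piDD ι (pw W M)).filter (fun x => x m = 1), φ (totN M x) *
      (∑ c ∈ DD (pw W M), Γ (fun h => cellN M (Function.update x m c h))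
        (totN M (Function.update x m c)) / (c : ℝ)) ^ 2 / ∏ h, (x h : ℝ) -
    SS W M ^ (Fintype.card ι + 1) *
      ∑ i ∈ Fintype.piFinset (fun _ : ι => range T), ∑ i' ∈ range T, ∑ t0 ∈ range T,
      ∑ t1 ∈ range T, ∑ t2 ∈ range T, φ t0 * Γ i t1 * Γ (Function.update i m i') t2 *
        (volume (cs2 m i i' t0 t1 t2)).toReal| ≤ ε * SS W M ^ (Fintype.card ι + 1))

end Pool.Agent.Helper27.BG
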