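import Pool.Agent.Helper27.BG.St2
import Pool.Agent.Helper27.BG.Tab
import Pool.Agent.Helper60.GP.Defs

/-!
# Project BG: statements, part 3 (asymptotics and the new inequality)

`K = 49` shifts, `F(i, t) = hB t ∏ gB (i h) - hA t ∏ gA (i h)`, support: `i h < 1055`, `t < 1055`.
-/

set_option autoImplicit false

noncomputable section

namespace Pool.Agent.Helper27.BG

open Finset MeasureTheory
open Pool.Agent.Helper90.MT (lam mat wt szA prt szU VV DD piDD Ok EqD Avd)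
open Pool.Agent.Helper60.GP (IsB JJ)
open Pool.Agent.Helper15.AB (Th)

/-- the cell function `F` -/
def FN {ι : Type} [Fintype ι] (i : ι → ℕ) (t : ℕ) : ℝ :=
  (hB t : ℝ) * ∏ h, (gB (i h) : ℝ) - (hA t : ℝ) * ∏ h, (gA (i h) : ℝ)

section
variable {ι : Type} [Fintype ι] [DecidableEq ι]

/-- the sieve function -/
def YY (W M : ℕ) (a : Pw W M → Option ι) : ℝ :=
  FN (fun h => cellN M (prt (pw W M) a h)) (totN M (prt (pw W M) a))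

/-- piece of the marginal: `φ` of the cell of the total size -/
def UU (W M : ℕ) (m : ι) (φ : ℕ → ℝ) (a : Pw W M → Option ι) : ℝ :=
  φ (totN M (prt (pw W M) a)) * Vm (pw W M) m (YY W M) a

/-- `∫ F²` -/
def IR (ι : Type) [Fintype ι] [DecidableEq ι] : ℝ :=
  ∑ i ∈ Fintype.piFinset (fun _ : ι => range 1055), ∑ t ∈ range 1055,
    FN i t ^ 2 * (volume (cs1 i t)).toReal

/-- `∫ φ F_m²` -/
def OR (m : ι) (φ : ℕ → ℝ) : ℝ :=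
  ∑ i ∈ Fintype.piFinset (fun _ : ι => range 1055), ∑ i' ∈ range 1055, ∑ t0 ∈ range 1055,
    ∑ t1 ∈ range 1055, ∑ t2 ∈ range 1055, φ t0 * FN i t1 * FN (Function.update i m i') t2 *
      (volume (cs2 m i i' t0 t1 t2)).toReal

end

/-- the smooth weight -/
def eta (ω : ℝ → ℝ) (M n : ℕ) : ℝ := ω (Real.log (n / M))

open Classical in
/-- the weighted indicator function of the primes -/
def fM (ω : ℝ → ℝ) (M l : ℕ) : ℝ := if l.Prime then Real.log l * ω (Real.log (l / M)) else 0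

/-- hypotheses on the modulus and the class -/
structure Gd {ι : Type} (sh : ι → ℕ) (w W v : ℕ) : Prop where
  inj : Function.Injective sh
  lt : ∀ h, sh h < w
  dv : Dv w W
  cop : ∀ h, (v + sh h).Coprime W

/-! ### number theory -/

/-- BVF: Bombieri-Vinogradov for `fM`, with divisor weights, level `M^0.4999`.
Proof: `E q := max` over the classes `a` coprime to `q` of the discrepancy. (1) Prime powers:
`Λ(l) ω(log(l/M))` and `fM` differ on prime powers `p^j`, `j ≥ 2`, of `(M, 4M]`; their number is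
`≤ C √M log M`, so this changes each discrepancy by `≤ C √M log² M`, in total over
`q ≤ M^0.4999` with weights `k^ω(q)` (`∑_{q ≤ Q} k^ω(q) ≤ Q (1 + log Q)^k`) by `≤ M^0.99995`.
(2) Cauchy-Schwarz as in Helper90/MT/A13a.lean, A13b.lean:
`∑ k^ω(q) E q ≤ (∑ k^{2ω(q)} E' q / ...)^{1/2} (∑ E q)^{1/2}` with the trivial bound
`E q ≤ C M log M / φ(q)` (number of `n ≡ a (q)` in `(M,4M]` is `≤ 3M/q + 1`), and
`∑ E q ≤ M / (log M)^A'` for every `A'` by `Helper60.GP.StBVc` (theorem pB3 in Helper60/GP/All.lean)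
applied with `x = M`, `θ = 0.4999` and `b q` = a class where the maximum is attained.
(`⌊3 * x⌋` versus `(M, 4M]`: the support of `ω (log (n/M))` is contained in `(M, 3M)`.) -/
def StBVf : Prop := ∀ ω : ℝ → ℝ, IsB ω → ∀ k A : ℕ, ∃ M₁ : ℕ, ∀ M ≥ M₁, ∃ E : ℕ → ℝ,
  (∀ q, 0 ≤ E q) ∧
  (∀ q a : ℕ, 1 ≤ q → (q : ℝ) ≤ (M : ℝ) ^ (4999 / 10000 : ℝ) → a.Coprime q →
    |∑ n ∈ (Ioc M (4 * M)).filter (fun n => n ≡ a [MOD q]), fM ω M n - Th ω M / q.totient| ≤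
      E q) ∧
  ∑ q ∈ Icc 1 ⌊(M : ℝ) ^ (4999 / 10000 : ℝ)⌋₊, (k : ℝ) ^ q.primeFactors.card * E q ≤
    (M : ℝ) / Real.log M ^ A

/-- ETA: properties of the weights.
Proof: `EqD`: `Helper60.GP.StAP` (hAP in M_S2.lean) with `x = M` (`N = range (4M+1)` contains the
support; `n ≡ c [MOD q]` is `q ∣ n - c`). Shift: for `n + h` prime with `fM (n+h) ≠ 0`:
`M < n + h ≤ 4M`, `log (n+h) ≤ log (5M)`, and `ω ∘ log` is Lipschitz: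
`|ω(log((n+h)/M)) - ω(log(n/M))| ≤ sup |ω'| * log((n+h)/n) ≤ C/M` for `n ≥ M/2`. PNT:
`Helper60.GP.StPNT` (pB4) gives `Th ω M ~ JJ ω M`. -/
def StEta : Prop := ∀ ω : ℝ → ℝ, IsB ω → ∀ h₀ : ℕ, ∃ C : ℝ, 0 < C ∧ ∃ M₁ : ℕ, ∀ M ≥ M₁,
  (∀ n, 0 ≤ eta ω M n) ∧ (∀ n, eta ω M n ≤ 1) ∧ (∀ n, 0 ≤ fM ω M n) ∧
  EqD (range (4 * M + 1)) (eta ω M) (JJ ω * M) C ∧
  (∀ n, fM ω M n ≠ 0 → n.Prime ∧ n ∈ Ioc M (4 * M)) ∧
  ∀ n h : ℕ, h ≤ h₀ → fM ω M (n + h) ≤ Real.log (5 * M) * (eta ω M n + C / M)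

/-! ### bounds for the sieve objects -/

/-- OKW: standing assumptions hold for large `M`.
Proof: sieving primes are `> w ≥ 2 * 49` and `> |sh h - sh h'| > 0`; `∑_{p > w} 1/p² ≤ 1/w`.
`|FN| ≤ B` because the tables are finite (`gA i = 0`, `hA t = 0` for large arguments); `YY a ≠ 0`
implies `totN < 1055` (tables vanish for `t ≥ 1055`), hence `szA a = ∏ prt ≤ RR M ^ 1.055`. -/
def StOkw : Prop := ∃ B : ℝ, 0 < B ∧ ∀ (ι : Type) [Fintype ι] [DecidableEq ι],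
  Fintype.card ι = 49 → (∀ (i : ι → ℕ) (t : ℕ), |FN i t| ≤ B) ∧
  (∀ (i : ι → ℕ) (t : ℕ), FN i t ≠ 0 → (∀ h, i h < 1055) ∧ t < 1055) ∧
  ∀ (sh : ι → ℕ) (w W v : ℕ), 98 ≤ w → Gd sh w W v → ∃ M₁ : ℕ, ∀ M ≥ M₁,
    Ok (pw W M) sh 49 W v ∧ (∑ i, 1 / (pw W M i : ℝ) ^ 2 ≤ (1 : ℝ) / w) ∧ 1 < RR M ∧
    (∀ a : Pw W M → Option ι, (totN M (prt (pw W M) a) < 1055 ↔
      (szA (pw W M) a : ℝ) < RR M ^ (1055 / 1000 : ℝ))) ∧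
    ∀ (a : Pw W M → Option ι) (T : ℕ), totN M (prt (pw W M) a) < T →
      (szA (pw W M) a : ℝ) ≤ RR M ^ ((T : ℝ) / 1000)

/-! ### asymptotics -/

/-- MIN: the sum over all integers.
Proof: `StS1` (Helper90/MT/S1.lean) with `N = range (4M+1)`, `η = eta`, `X = JJ M`, `V = C`:
main term `X/W ∑ YY²/szA`, error `C (∑ |lam|)² ≤ C (B Z (1+log Z)^98)²`, `Z = RR^1.055`, i.e.
`O(M^0.53 log^196 M) ≤ (ε/3) JJ M/W`. `∑_a YY²/szA` versus tuples: TUP with `G = FN²` (error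
`B² Et 49 ≤ ε' SS^49` by ERR), then CL1 with `Γ = FN²`, `T = 1055`. -/
def StMin : Prop := StTup → StErr → StMer → StCl1 → StMul → StOne → StSWs → StDDw → StLm →
  StOkw → StEta →
  ∀ (ω : ℝ → ℝ), IsB ω → 0 < JJ ω → ∀ (ι : Type) [Fintype ι] [DecidableEq ι] (sh : ι → ℕ),
  Fintype.card ι = 49 → ∀ ε : ℝ, 0 < ε → ∃ w₀ : ℕ, ∀ w ≥ w₀, ∀ W v : ℕ, Gd sh w W v →
  ∃ M₁ : ℕ, ∀ M ≥ M₁,
  ∑ n ∈ (range (4 * M + 1)).filter (fun n => n ≡ v [MOD W]),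
    eta ω M n * LF (pw W M) sh (YY W M) n ^ 2 ≤
    JJ ω * M / W * SS W M ^ 49 * (IR ι + ε)

/-- VSQ: sums of squares of the marginal.
Proof: TV2 with `G x = FN (cellN ∘ x) (totN x)`, `φ x = φ (totN M x)`, then ERR (`Et 50`), CL2 with
`Γ = FN`, `T = 1055`. (`φ` may be changed to `0` beyond `1055`: there `Vm = 0` and the table of the
limit only uses `t0 < 1055`.) -/
def StVsq : Prop := StTV2 → StErr → StMer → StCl2 → StMul → StOne → StSWs → StDDw → StOkw →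
  ∀ (ι : Type) [Fintype ι] [DecidableEq ι] (m : ι), Fintype.card ι = 49 → ∀ (φ : ℕ → ℝ) (b : ℝ),
  (∀ t, |φ t| ≤ b) → ∀ ε : ℝ, 0 < ε → ∃ w₀ : ℕ, ∀ w ≥ w₀, ∀ W : ℕ, Dv w W → ∃ M₁ : ℕ, ∀ M ≥ M₁,
  |∑ a, φ (totN M (prt (pw W M) a)) * Vm (pw W M) m (YY W M) a ^ 2 / szA (pw W M) a -
    SS W M ^ 50 * OR m φ| ≤ ε * SS W M ^ 50

/-- the conclusion of `StVsq` -/
def VsqC : Prop :=
  ∀ (ι : Type) [Fintype ι] [DecidableEq ι] (m : ι), Fintype.card ι = 49 → ∀ (φ : ℕ → ℝ) (b : ℝ),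
  (∀ t, |φ t| ≤ b) → ∀ ε : ℝ, 0 < ε → ∃ w₀ : ℕ, ∀ w ≥ w₀, ∀ W : ℕ, Dv w W → ∃ M₁ : ℕ, ∀ M ≥ M₁,
  |∑ a, φ (totN M (prt (pw W M) a)) * Vm (pw W M) m (YY W M) a ^ 2 / szA (pw W M) a -
    SS W M ^ 50 * OR m φ| ≤ ε * SS W M ^ 50

/-- BLF: known correlations over the primes `n + sh m`.
Proof: BIL with `Y = UU φ`, `Y' = UU ψ`, `f = fM`, `X = Th ω M`, `Qm = ⌊M^0.4999⌋`: by OKW and VBD
`szA ≤ RR^(T1/1000)`, `RR^(T2/1000)` on the supports, so `W szU ≤ W RR^2 = W M^0.4998 ≤ Qm`. Error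
term: PRS, LAM (`|lam| ≤ b B C SS (1 + log M)^49`), BVF with `k = 50²`, `A = 200`. Form: FRM, error
`(b B C SS)² Er 48 D ≤ ε' SS^50` (ERR, MER, VBD), diagonal
`∑ UU φ * UU ψ / szA = ∑ (φ ψ)(tot) Vm²/szA`: VSQ. `Th ω M = (JJ ω + o(1)) M`: `Helper60.GP.StPNT`
(hypothesis `hT`). -/
def StBlf : Prop := StBil → StFrm → StLm → StPrs → StVbd → StErr → StMer → StOkw → StBVf →
  StEta → VsqC → (∀ ω : ℝ → ℝ, IsB ω → ∀ ε : ℝ, 0 < ε → ∃ x₀ : ℝ, ∀ x : ℝ, x₀ ≤ x →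
    |Th ω x - JJ ω * x| ≤ ε * x) →
  ∀ (ω : ℝ → ℝ), IsB ω → 0 < JJ ω → ∀ (ι : Type) [Fintype ι] [DecidableEq ι] (sh : ι → ℕ) (m : ι),
  Fintype.card ι = 49 → ∀ (φ ψ : ℕ → ℝ) (b : ℝ) (T1 T2 : ℕ), (∀ t, |φ t| ≤ b) →
  (∀ t, |ψ t| ≤ b) → (∀ t, φ t ≠ 0 → t < T1) → (∀ t, ψ t ≠ 0 → t < T2) → T1 + T2 ≤ 2000 →
  ∀ ε : ℝ, 0 < ε → ∃ w₀ : ℕ, ∀ w ≥ w₀, ∀ W v : ℕ, Gd sh w W v → ∃ M₁ : ℕ, ∀ M ≥ M₁,
  |∑ n ∈ (range (4 * M + 1)).filter (fun n => n ≡ v [MOD W]), fM ω M (n + sh m) *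
      (LF (pw W M) sh (UU W M m φ) n * LF (pw W M) sh (UU W M m ψ) n) -
    JJ ω * M / W.totient * SS W M ^ 50 * OR m (fun t => φ t * ψ t)| ≤
    ε * (JJ ω * M / W.totient * SS W M ^ 50)

/-- the conclusion of `StBlf` -/
def BlfC : Prop :=
  ∀ (ω : ℝ → ℝ), IsB ω → 0 < JJ ω → ∀ (ι : Type) [Fintype ι] [DecidableEq ι] (sh : ι → ℕ) (m : ι),
  Fintype.card ι = 49 → ∀ (φ ψ : ℕ → ℝ) (b : ℝ) (T1 T2 : ℕ), (∀ t, |φ t| ≤ b) →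
  (∀ t, |ψ t| ≤ b) → (∀ t, φ t ≠ 0 → t < T1) → (∀ t, ψ t ≠ 0 → t < T2) → T1 + T2 ≤ 2000 →
  ∀ ε : ℝ, 0 < ε → ∃ w₀ : ℕ, ∀ w ≥ w₀, ∀ W v : ℕ, Gd sh w W v → ∃ M₁ : ℕ, ∀ M ≥ M₁,
  |∑ n ∈ (range (4 * M + 1)).filter (fun n => n ≡ v [MOD W]), fM ω M (n + sh m) *
      (LF (pw W M) sh (UU W M m φ) n * LF (pw W M) sh (UU W M m ψ) n) -
    JJ ω * M / W.totient * SS W M ^ 50 * OR m (fun t => φ t * ψ t)| ≤
    ε * (JJ ω * M / W.totient * SS W M ^ 50)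

/-- MJF: the majorant over the primes `n + sh m`, level `≤ 1.055`.
Proof: if `fM (n + h) ≠ 0` then no sieving prime divides `n + h` (a prime `> M ≥` all of them), so
with ETA the sum is `≤ log(5M) ∑_{n, no pr i ∣ n + h} (eta n + C/M) LF²`. The part with `C/M`: trivial
bound `|LF| ≤ ∑ |lam| ≤ M^0.27`, total `≤ M^0.6`. Main part: MAJ with `Z = RR^1.055`,
`R' = RR^0.945`, `B = b B₀ C SS` (VBD, MER); the error `V (B Z R' (..)^98)² ≤ RR^4 log^C M =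
M^0.9996 log^C M` is negligible. `S' = ∑_{d ≤ R'} 1/d = SW W R'` (DDW)
`≥ (1 - 2/w) φ(W)/W * 0.945 log RR - C = (0.945 - o(1)) SS` (SWS). So the main term is
`log(5M) * JJ M/W * 1/((1-1/w) (0.945 - o(1)) SS) * (SS^50 (OR (φ²) + ε') + ε' SS^50)` by VSQ, ERR, and
`log(5M) φ(W) / (W SS * 0.945) → 1/(0.2499 * 0.945) = 4.2345... < 17/4`.
(`OR m (φ²) ≥ 0`: limit of nonnegative sums, or `VsqC`.) -/
def StMjf : Prop := StMaj → StLm → StVbd → StErr → StMer → StSWs → StDDw → StOkw → StEta → VsqC →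
  ∀ (ω : ℝ → ℝ), IsB ω → 0 < JJ ω → ∀ (ι : Type) [Fintype ι] [DecidableEq ι] (sh : ι → ℕ) (m : ι),
  Fintype.card ι = 49 → ∀ (φ : ℕ → ℝ) (b : ℝ), (∀ t, |φ t| ≤ b) → (∀ t, φ t ≠ 0 → t < 1055) →
  ∀ ε : ℝ, 0 < ε → ∃ w₀ : ℕ, ∀ w ≥ w₀, ∀ W v : ℕ, Gd sh w W v → ∃ M₁ : ℕ, ∀ M ≥ M₁,
  ∑ n ∈ (range (4 * M + 1)).filter (fun n => n ≡ v [MOD W]), fM ω M (n + sh m) *
      LF (pw W M) sh (UU W M m φ) n ^ 2 ≤
    JJ ω * M / W.totient * SS W M ^ 50 * (17 / 4 * OR m (fun t => φ t ^ 2) + ε)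

/-- the conclusion of `StMjf` -/
def MjfC : Prop :=
  ∀ (ω : ℝ → ℝ), IsB ω → 0 < JJ ω → ∀ (ι : Type) [Fintype ι] [DecidableEq ι] (sh : ι → ℕ) (m : ι),
  Fintype.card ι = 49 → ∀ (φ : ℕ → ℝ) (b : ℝ), (∀ t, |φ t| ≤ b) → (∀ t, φ t ≠ 0 → t < 1055) →
  ∀ ε : ℝ, 0 < ε → ∃ w₀ : ℕ, ∀ w ≥ w₀, ∀ W v : ℕ, Gd sh w W v → ∃ M₁ : ℕ, ∀ M ≥ M₁,
  ∑ n ∈ (range (4 * M + 1)).filter (fun n => n ≡ v [MOD W]), fM ω M (n + sh m) *
      LF (pw W M) sh (UU W M m φ) n ^ 2 ≤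
    JJ ω * M / W.totient * SS W M ^ 50 * (17 / 4 * OR m (fun t => φ t ^ 2) + ε)

/-! ### the new inequality -/

/-- PTW: the pointwise inequality. Here `β j`, `γ j`, `1 ≤ j ≤ J`, `N 0 = 0`, `κ > 1`,
`Mj j = (κ-1)/κ * N j`, `ρ j = κ/((κ-1)(1+N j))`, so that `z j = N j/(1+N j) = ρ j * Mj j`,
`Z = α + ∑ z j β j`, `D τ = ∑_{j>τ} ρ j β j`, `G τ = ∑_{j>τ} γ j`.
Proof: let `X` be the whole sum. `X² ≥ 2 X Z - Z²`. By `∑_{τ < min(j,m)} (Mj (τ+1) - Mj τ) =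
Mj (min j m)`: `∑_τ μ τ * 2 * D τ * G τ = 2 ∑_{j,m} ρ j Mj(min j m) β j γ m`, so
`2 ∑_j z j β j ∑_m γ m = ∑_τ μ τ * 2 D τ G τ + 2 ∑_{m<j} ρ j (Mj j - Mj m) β j γ m`. Finally
`0 ≤ (G + (κ-1)/κ D)² = (G - D/κ)² + 2 D G + ((κ-1)²-1)/κ² D²` and `μ τ ≥ 0`. -/
def StPtw : Prop := ∀ (J : ℕ) (N β γ : ℕ → ℝ) (α κ : ℝ), 1 < κ → N 0 = 0 → Monotone N →
  2 * (α + ∑ j ∈ Icc 1 J, β j) * (α + ∑ j ∈ Icc 1 J, N j / (1 + N j) * β j) -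
    (α + ∑ j ∈ Icc 1 J, N j / (1 + N j) * β j) ^ 2 + 2 * α * ∑ j ∈ Icc 1 J, γ j +
    2 * ∑ j ∈ Icc 1 J, ∑ m ∈ Ico 1 j, κ / ((κ - 1) * (1 + N j)) * ((κ - 1) / κ * (N j - N m)) *
      (β j * γ m) -
    ∑ τ ∈ range J, (κ - 1) / κ * (N (τ + 1) - N τ) *
      ((∑ j ∈ Ioc τ J, γ j - ∑ j ∈ Ioc τ J, 1 / ((κ - 1) * (1 + N j)) * β j) ^ 2 +
       ((κ - 1) ^ 2 - 1) * (∑ j ∈ Ioc τ J, 1 / ((κ - 1) * (1 + N j)) * β j) ^ 2) ≤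
  (α + ∑ j ∈ Icc 1 J, β j + ∑ j ∈ Icc 1 J, γ j) ^ 2

/-- the weight function of the new inequality (`J = 55`) -/
def om (N : ℕ → ℝ) (t : ℕ) : ℝ :=
  if t < 945 then 1 else if t < 1000 then N (1000 - t) / (1 + N (1000 - t))
  else if t < 1055 then -(13 / 4) * N (t - 999) else 0

/-- LOW: lower bound for the sum over the primes `n + sh m`.
Proof: if `fM (n + h) ≠ 0` then `LF (YY) n = LF (Vm YY) n` (MRG; `n + h` is a prime larger than all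
sieving primes) and `Vm YY = UU φ_far + ∑_{j=1}^{55} UU φ_{B_j} + ∑_{j=1}^{55} UU φ_{C_j}` where
`φ_far t = [t < 945]`, `φ_{B_j} t = [t = 1000 - j]`, `φ_{C_j} t = [t = 999 + j]` (OKW, VBD: `Vm YY a ≠ 0`
implies `tot < 1055`). Use LIN and PTW (`κ = 17/4`, `J = 55`) with `α, β j, γ j` = the linear forms at `n`,
multiply by `fM (n + h) ≥ 0` and sum over `n`. Every product on the left of PTW is a product of two
linear forms `LF (UU φ) * LF (UU ψ)` with `(T1, T2)` equal to `(1000, 1000)` (far and `B` parts),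
`(945, 1055)` (far, `C`), `(1001 - j, 1000 + m)`, `m < j` (`B_j`, `C_m`): BLF applies; its main term is
`OR m (φ ψ)` and products of disjoint indicators vanish. The only other term is
`-(17/4-1)/(17/4) (N(τ+1) - N τ) * (G τ - D τ/κ)²`, to which MJF applies (`b = 1`):
`φ = [C_{>τ}] - ∑_{j>τ} 1/((κ-1)(1+N j)) [B_j]`, `φ²` = sum of squares of the coefficients times
indicators. `OR m` is linear in `φ`. Writing `c_t = OR m [· = t]`, `o = OR m φ_far`, the limit is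
`o + ∑_j (2 z - z²) c_{B_j} - ∑_τ μ τ (κ ∑_{j>τ} (c_{C_j} + c_{B_j}/((κ-1)(1+N_j))²) +
 ((κ-1)²-1) ∑_{j>τ} c_{B_j}/((κ-1)(1+N_j))²)`, `∑_{τ<j} μ τ = (κ-1)/κ N j`, and
`κ + (κ-1)² - 1 = κ (κ-1)`, so the coefficient of `c_{B_j}` is
`2z - z² - (κ-1)/κ N κ(κ-1)/((κ-1)²(1+N)²) = 2z - z² - N/(1+N)² = N/(1+N)`, that of `c_{C_j}` is
`-(κ-1) N j = -(13/4) N j`: exactly `OR m (om N)`. -/
def StLow : Prop := StLin → StPtw → StMrg → StVbd → StOkw → StEta → BlfC → MjfC →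
  ∀ (ω : ℝ → ℝ), IsB ω → 0 < JJ ω → ∀ (ι : Type) [Fintype ι] [DecidableEq ι] (sh : ι → ℕ) (m : ι),
  Fintype.card ι = 49 → ∀ N : ℕ → ℝ, N 0 = 0 → Monotone N →
  ∀ ε : ℝ, 0 < ε → ∃ w₀ : ℕ, ∀ w ≥ w₀, ∀ W v : ℕ, Gd sh w W v → ∃ M₁ : ℕ, ∀ M ≥ M₁,
  JJ ω * M / W.totient * SS W M ^ 50 * (OR m (om N) - ε) ≤
  ∑ n ∈ (range (4 * M + 1)).filter (fun n => n ≡ v [MOD W]), fM ω M (n + sh m) *
      LF (pw W M) sh (YY W M) n ^ 2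

/-- the conclusion of `StMin` -/
def MinC : Prop :=
  ∀ (ω : ℝ → ℝ), IsB ω → 0 < JJ ω → ∀ (ι : Type) [Fintype ι] [DecidableEq ι] (sh : ι → ℕ),
  Fintype.card ι = 49 → ∀ ε : ℝ, 0 < ε → ∃ w₀ : ℕ, ∀ w ≥ w₀, ∀ W v : ℕ, Gd sh w W v →
  ∃ M₁ : ℕ, ∀ M ≥ M₁,
  ∑ n ∈ (range (4 * M + 1)).filter (fun n => n ≡ v [MOD W]),
    eta ω M n * LF (pw W M) sh (YY W M) n ^ 2 ≤
    JJ ω * M / W * SS W M ^ 49 * (IR ι + ε)

/-- the conclusion of `StLow` -/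
def LowC : Prop :=
  ∀ (ω : ℝ → ℝ), IsB ω → 0 < JJ ω → ∀ (ι : Type) [Fintype ι] [DecidableEq ι] (sh : ι → ℕ) (m : ι),
  Fintype.card ι = 49 → ∀ N : ℕ → ℝ, N 0 = 0 → Monotone N →
  ∀ ε : ℝ, 0 < ε → ∃ w₀ : ℕ, ∀ w ≥ w₀, ∀ W v : ℕ, Gd sh w W v → ∃ M₁ : ℕ, ∀ M ≥ M₁,
  JJ ω * M / W.totient * SS W M ^ 50 * (OR m (om N) - ε) ≤
  ∑ n ∈ (range (4 * M + 1)).filter (fun n => n ≡ v [MOD W]), fM ω M (n + sh m) *
      LF (pw W M) sh (YY W M) n ^ 2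

/-- the numerical inequality -/
def NumR : Prop := ∃ N : ℕ → ℝ, N 0 = 0 ∧ Monotone N ∧ ∀ (ι : Type) [Fintype ι] [DecidableEq ι],
  Fintype.card ι = 49 → 0 < IR ι ∧
    ∀ m : ι, (10002 / 10000 : ℝ) * IR ι < 49 * (2499 / 10000) * OR m (om N)

/-- TWO: two primes among the shifts.
Proof: choose `ω` by `Helper60.GP.StBump` (pB5), `ε` small by NumR, `w` large, `M` large. Let `C` be
the constant of ETA. If for all `n` at most one `n + sh m` is prime, then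
`∑_m fM (n + sh m) ≤ log(5M) (eta n + C/M)` for all `n`; multiply by `LF²` and sum:
`49 * JJ M/φ(W) SS^50 (OR - ε) ≤ log(5M) JJ M/W SS^49 (IR + ε) + log(5M) (C/M) ∑_n LF²`. The last term
is `≤ M^0.6` (`|LF| ≤ ∑ |lam| ≤ M^0.27`, LAM and OKW). Since `SS/φ(W) = 0.2499 log M/W` and
`log(5M) ≤ 1.0001 log M` this gives `49 * 0.2499 (OR - ε) ≤ 1.0001 (IR + ε) + o(1)`, contradicting
NumR. (All the `OR m` satisfy the same inequality.) The `n` found satisfies `n + sh m > M`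
for some `m` with `fM ≠ 0`, so `n ≥ M - w ≥ n₀`. -/
def StTwo : Prop := MinC → LowC → NumR → StEta → StLm → StOkw →
  (∀ L : ℝ, 0 < L → ∃ ω : ℝ → ℝ, IsB ω ∧ 0 < JJ ω ∧ ∀ t, ω t ≠ 0 → 0 < t ∧ t < L) →
  ∀ (ι : Type) [Fintype ι] [DecidableEq ι] (sh : ι → ℕ), Fintype.card ι = 49 →
  ∃ w₀ : ℕ, ∀ w ≥ w₀, ∀ W v : ℕ, Gd sh w W v → ∀ n₀ : ℕ, ∃ n ≥ n₀, n ≡ v [MOD W] ∧
    ∃ m m' : ι, m ≠ m' ∧ (n + sh m).Prime ∧ (n + sh m').Prime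

/-- the conclusion of `StTwo` -/
def TwoC : Prop :=
  ∀ (ι : Type) [Fintype ι] [DecidableEq ι] (sh : ι → ℕ), Fintype.card ι = 49 →
  ∃ w₀ : ℕ, ∀ w ≥ w₀, ∀ W v : ℕ, Gd sh w W v → ∀ n₀ : ℕ, ∃ n ≥ n₀, n ≡ v [MOD W] ∧
    ∃ m m' : ι, m ≠ m' ∧ (n + sh m).Prime ∧ (n + sh m').Prime

end Pool.Agent.Helper27.BG
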