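import Pool.Agent.Helper27.BG.St3

/-!
# Project BG: statements, part 4 (volumes, evaluation of the integrals, numerical inequality)
-/

set_option autoImplicit false

noncomputable section

namespace Pool.Agent.Helper27.BG

open Finset MeasureTheory

/-- `∑_{i ≤ y} (-1)^i C(m,i) (y-i)^(m+r)`: integer numerator of the distribution function of a sum
of `m` uniform variables (`r = 0`) and of its antiderivatives -/
def PQ (m r y : ℕ) : ℤ := ∑ i ∈ range (y + 1), (-1) ^ i * (m.choose i : ℤ) * ((y - i : ℕ) : ℤ) ^ (m + r)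

/-- the part of the unit cube where the sum has integral part `j` -/
def IH (κ : Type) [Fintype κ] (j : ℕ) : Set (κ → ℝ) :=
  {θ | (∀ h, 0 ≤ θ h ∧ θ h < 1) ∧ ⌊∑ h, θ h⌋₊ = j}

/-- IRW: the Irwin-Hall distribution.
Proof: let `F y = vol {θ ∈ [0,1)^κ : ∑ θ < y}`. By induction on `m = card κ` (`κ = Fin m`, split off
one coordinate): `F y = 1/m! * ∑_i (-1)^i C(m,i) (max (y-i) 0)^m` for all real `y` (for `m = 1` check
directly; `F_{m+1}(y) = ∫_0^1 F_m(y - x) dx`, `∫_0^1 max(y-x-i,0)^m dx =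
(max(y-i,0)^{m+1} - max(y-i-1,0)^{m+1})/(m+1)`, Pascal's rule). Hence `vol (IH κ j) = F(j+1) - F(j)`,
`F(j) = PQ m 0 j / m!`. For the moments use `s - j = ∫_0^1 [τ < s - j] dτ`,
`(s-j)² = ∫_0^1 2τ [τ < s-j] dτ` for `s ∈ [j, j+1)` and Fubini: with `F(j+τ)` the integrals become
`F(j+1) - ∫_0^1 F(j+τ) dτ`, `F(j+1) - ∫_0^1 2τ F(j+τ) dτ`, and the antiderivatives of
`max(y-i,0)^m/m!` are `max(y-i,0)^{m+1}/(m+1)!` etc. -/
def StIrw : Prop := ∀ (κ : Type) [Fintype κ] [DecidableEq κ] (m j : ℕ), Fintype.card κ = m →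
  0 < m → (volume (IH κ j)).toReal = ((PQ m 0 (j + 1) - PQ m 0 j : ℤ) : ℝ) / m.factorial ∧
  ∫ θ in IH κ j, (∑ h, θ h - j) = (PQ m 0 (j + 1) : ℝ) / m.factorial -
    ((PQ m 1 (j + 1) - PQ m 1 j : ℤ) : ℝ) / (m + 1).factorial ∧
  ∫ θ in IH κ j, (∑ h, θ h - j) ^ 2 = (PQ m 0 (j + 1) : ℝ) / m.factorial -
    2 * (PQ m 1 (j + 1) : ℝ) / (m + 1).factorial +
    2 * ((PQ m 2 (j + 1) - PQ m 2 j : ℤ) : ℝ) / (m + 2).factorial

open Classical in
/-- CS1: volume of a cell. Proof: substitute `u h = (i h + θ h)/1000`; then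
`⌊1000 ∑ u⌋ = ∑ i + ⌊∑ θ⌋`. -/
def StCs1 : Prop := ∀ (κ : Type) [Fintype κ] [DecidableEq κ] (i : κ → ℕ) (t : ℕ),
  (volume (cs1 i t)).toReal =
    if ∑ h, i h ≤ t then (1 / 1000) ^ Fintype.card κ * (volume (IH κ (t - ∑ h, i h))).toReal else 0

/-- weight of a cell in one more variable -/
def cw (t0 t1 i : ℕ) (x : ℝ) : ℝ := if t1 = t0 + i then 1 - x else if t1 = t0 + i + 1 then x else 0

open Classical in
/-- CS2: volume of a cell for the square of the marginal.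
Proof: substitute `u = (i + θ)/1000` in all the variables, let `j = t0 - ∑_{h≠m} i h`,
`x = ∑_{h≠m} θ h - j ∈ [0,1)` on the set where `⌊1000 ∑_{h≠m} u⌋ = t0`. For given `x` the set of
`θ_m ∈ [0,1)` with `⌊1000 ∑ u⌋ = ⌊t0 + x + i m + θ_m⌋ = t1` has length `cw t0 t1 (i m) x`, the same
for the variable `none`. Fubini. -/
def StCs2 : Prop := ∀ (ι : Type) [Fintype ι] [DecidableEq ι] (m : ι) (i : ι → ℕ)
  (i' t0 t1 t2 : ℕ), (volume (cs2 m i i' t0 t1 t2)).toReal =
    if ∑ h ∈ univ.erase m, i h ≤ t0 then (1 / 1000) ^ (Fintype.card ι + 1) *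
      ∫ θ in IH {h : ι // h ≠ m} (t0 - ∑ h ∈ univ.erase m, i h),
        cw t0 t1 (i m) (∑ h, θ h - (t0 - ∑ h ∈ univ.erase m, i h : ℕ)) *
        cw t0 t2 i' (∑ h, θ h - (t0 - ∑ h ∈ univ.erase m, i h : ℕ))
    else 0

/-- `∑ g(i) g'(i) z^i` -/
def Pg (g g' : ℕ → ℕ) : Polynomial ℤ :=
  ∑ i ∈ range 1055, Polynomial.C ((g i : ℤ) * g' i) * Polynomial.X ^ i

/-- integers `50! * E[x^q ; IH_48 j]` -/
def eI (q j : ℕ) : ℤ :=
  if q = 0 then 50 * 49 * (PQ 48 0 (j + 1) - PQ 48 0 j)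
  else if q = 1 then 50 * 49 * PQ 48 0 (j + 1) - 50 * (PQ 48 1 (j + 1) - PQ 48 1 j)
  else 50 * 49 * PQ 48 0 (j + 1) - 2 * 50 * PQ 48 1 (j + 1) + 2 * (PQ 48 2 (j + 1) - PQ 48 2 j)

/-- convolution of the coefficients of `P^48` with `eI q` -/
def QQ (g g' : ℕ → ℕ) (q t : ℕ) : ℤ := ∑ n ∈ range (t + 1), (Pg g g' ^ 48).coeff n * eI q (t - n)

/-- convolution of the coefficients of `P^49` with the Eulerian numbers -/
def CC (g g' : ℕ → ℕ) (t : ℕ) : ℤ :=
  ∑ n ∈ range (t + 1), (Pg g g' ^ 49).coeff n * (PQ 49 0 (t - n + 1) - PQ 49 0 (t - n))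

/-- radial factor of the marginal -/
def kap (g h : ℕ → ℕ) (t : ℕ) : ℤ := ∑ i ∈ range 1055, (g i : ℤ) * h (t + i)

/-- numerator of the integral of the product of two marginals over a cell -/
def Dn (g h g' h' : ℕ → ℕ) (t : ℕ) : ℤ :=
  kap g h t * kap g' h' t * (QQ g g' 0 t - 2 * QQ g g' 1 t + QQ g g' 2 t) +
  (kap g h t * kap g' h' (t + 1) + kap g h (t + 1) * kap g' h' t) * (QQ g g' 1 t - QQ g g' 2 t) +
  kap g h (t + 1) * kap g' h' (t + 1) * QQ g g' 2 t

/-- numerator for `F_m²` -/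
def Dt (t : ℕ) : ℤ := Dn gA hA gA hA t - 2 * Dn gA hA gB hB t + Dn gB hB gB hB t

/-- numerator of `∫ F²` -/
def Inum : ℤ := ∑ t ∈ range 1055, ((hA t : ℤ) ^ 2 * CC gA gA t -
  2 * ((hA t : ℤ) * hB t) * CC gA gB t + (hB t : ℤ) ^ 2 * CC gB gB t)

/-- EVI: evaluation of `∫ F²`.
Proof: expand `FN i t ^ 2 = hA² ∏ gA² - 2 hA hB ∏ gA gB + hB² ∏ gB²`; group the `i` by `n = ∑ i h`:
`∑_{i, ∑ i = n} ∏ g(i h) g'(i h) = (Pg g g' ^ 49).coeff n` (`Finset.prod_univ_sum`), and use CS1,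
IRW with `m = 49`: `vol = 1000^-49 (PQ 49 0 (t-n+1) - PQ 49 0 (t-n))/49!`. -/
def StEvi : Prop := StIrw → StCs1 → ∀ (ι : Type) [Fintype ι] [DecidableEq ι],
  Fintype.card ι = 49 → IR ι = (Inum : ℝ) / (1000 ^ 49 * Nat.factorial 49)

/-- EVO: evaluation of `∫ φ F_m²`.
Proof: expand both `FN` into two products. For a pair of products `(g,h)`, `(g',h')`, separate the
coordinate `i m` from the others (`n = ∑_{h ≠ m} i h`): by CS2
`∑_{i_m, i', t1, t2} g(i_m) h(t1) g'(i') h'(t2) * vol = 1000^-50 ∫_{IH (t0 - n)}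
 (κ(t0)(1-x) + κ(t0+1) x)(κ'(t0)(1-x) + κ'(t0+1) x)`, `κ = kap g h` (tables vanish beyond `1055`, so
restricting `t1, t2` to `range 1055` loses nothing), the integrals over `IH {h // h ≠ m} j` are given by IRW with
`m = 48`: `50! * (1, x, x²) ↦ eI 0 j, eI 1 j, eI 2 j`; and
`∑_{∑_{h≠m} i h = n} ∏_{h≠m} g g' = (Pg g g' ^ 48).coeff n`. -/
def StEvo : Prop := StIrw → StCs2 → ∀ (ι : Type) [Fintype ι] [DecidableEq ι] (m : ι),
  Fintype.card ι = 49 → ∀ φ : ℕ → ℝ,
  OR m φ = (∑ t ∈ range 1055, φ t * (Dt t : ℝ)) / (1000 ^ 50 * Nat.factorial 50)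

/-- the weights `N` -/
def NN (j : ℕ) : ℝ := if j ≤ 22 then 0 else if j ≤ 29 then 2 / 5 else if j ≤ 36 then 11 / 10
  else if j ≤ 43 then 13 / 5 else if j ≤ 49 then 13 / 2 else 22

/-- `57960 * om NN` -/
def omI (t : ℕ) : ℤ :=
  if t < 945 then 57960 else if t < 951 then 55440 else if t < 957 then 50232
  else if t < 964 then 41860 else if t < 971 then 30360 else if t < 978 then 16560
  else if t < 1022 then 0 else if t < 1029 then -75348 else if t < 1036 then -207207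
  else if t < 1043 then -489762 else if t < 1049 then -1224405 else -4144140

/-- NUM: the numerical inequality (verified exactly in python, ratio of the two sides 1.00018; see
/team-store/MP_3ec731-check.py). Proof in the kernel: Kronecker substitution. With
`X = 2^2400` the numbers `∑ g(i) g'(i) X^i` (1055 digits), their powers modulo `X^1055` (square and
multiply) and the products with `∑_j e_j X^j` give the digits `CC`, `QQ 0 - 2 QQ 1 + QQ 2`,
`QQ 1 - QQ 2`, `QQ 2` (all the combinations of `eI` occurring are nonnegative integers; all coefficients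
are `< X` because the coefficient sums of the powers are `(∑ g g')^48 < 2^1700`). `kap` similarly
(reversed table) or directly. Use `decide +kernel` (GMP arithmetic on `Nat` literals) for the
final evaluation, split into the three pairs `(A,A), (A,B), (B,B)`. -/
def StNum : Prop := 0 < Inum ∧
  50 * 1000 * 10002 * 57960 * Inum < 49 * 2499 * ∑ t ∈ range 1055, omI t * Dt t

/-- NMR: from integers to `NumR`. Proof: EVI, EVO, `57960 * om NN t = omI t` for `t < 1055`. -/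
def StNmr : Prop := StEvi → StEvo → StIrw → StCs1 → StCs2 → StNum → NumR

/-! ### endgame -/

/-- `n` realises `{0, d}`: `n` and `n + d` are consecutive primes -/
def Cons2 (n d : ℕ) : Prop := 0 < d ∧ n.Prime ∧ (n + d).Prime ∧ ∀ k, n < k → k < n + d → ¬ k.Prime

/-- FIN: the theorem for all admissible sets of 49 naturals.
Proof: let `D = max H + 1`, `w` large. `Helper90.MT.StMod` (theorem in Mod.lean) with `T = H`,
`E = range D \ H`, `m = 1`: `W, v` with `W` divisible by all the primes `≤ w`, `(v+h, W) = 1` for `h ∈ H` and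
a prime `q ∣ W`, `q ∣ v + e` for each `e ∈ E`. TWO with `ι = H` (subtype), `sh h = h`, gives infinitely
many `n ≡ v [MOD W]` with two primes among `n + h`; for `n > W`, `n + e` is composite for `e ∈ E`. Take
two consecutive ones `h < h'` among the `h ∈ H` with `n + h` prime: `Cons2 (n+h) (h'-h)`. Pigeonhole over
the finitely many pairs. -/
def StFin : Prop := TwoC → Pool.Agent.Helper90.MT.StMod → ∀ H : Finset ℕ, H.card = 49 →
  (∀ p : ℕ, p.Prime → ∃ r : ℕ, ∀ h ∈ H, ¬ p ∣ r + h) →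
  ∃ h ∈ H, ∃ h' ∈ H, h < h' ∧ {n : ℕ | Cons2 n (h' - h)}.Infinite

/-- ADM: an admissible set of 49 naturals in `[0, 240]`. -/
def StAdm : Prop := ∃ H : Finset ℕ, H.card = 49 ∧ (∀ h ∈ H, h ≤ 240) ∧
  ∀ p : ℕ, p.Prime → ∃ r : ℕ, ∀ h ∈ H, ¬ p ∣ r + h

end Pool.Agent.Helper27.BG
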