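import Pool.Agent.Helper27.BG.Asm
import Pool.Agent.Helper27.BG.NT
import Pool.Agent.Helper90.MT.Mod
import Pool.Agent.Helper67.BG.M_LIN
import Pool.Agent.Helper71.BG.M_BIL
import Pool.Agent.Helper96.BG.M_FRM
import Pool.Agent.Helper41.BG.M_LAM
import Pool.Agent.Helper41.BG.M_PRS
import Pool.Agent.Helper42.BG.M_MAJ
import Pool.Agent.Helper11.BG.M_MRG
import Pool.Agent.Helper3.BG.M_VBD
import Pool.Agent.Helper39.BG.M_TUP
import Pool.Agent.Helper89.BG.M_TV2
import Pool.Agent.Helper22.BG.M_SWS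
import Pool.Agent.Helper46.BG.M_DDW
import Pool.Agent.Helper32.BG.M_MER
import Pool.Agent.Helper34.BG.M_ERR
import Pool.Agent.Helper62.BG.M_ONE
import Pool.Agent.Helper40.BG.M_MUL
import Pool.Agent.Helper12.BG.M_CL1
import Pool.Agent.Helper80.BG.M_CL2
import Pool.Agent.Helper42.BG.M_BVF
import Pool.Agent.Helper16.BG.M_ETA
import Pool.Agent.Helper34.BG.M_OKW
import Pool.Agent.Helper85.BG.M_MIN
import Pool.Agent.Helper3.BG.M_VSQ
import Pool.Agent.Helper69.BG.M_BLF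
import Pool.Agent.Helper79.BG.M_MJF
import Pool.Agent.Helper47.BG.M_PTW
import Pool.Agent.Helper40.BG.M_LOW
import Pool.Agent.Helper71.BG.M_TWO
import Pool.Agent.Helper76.BG.M_IRW
import Pool.Agent.Helper34.BG.M_CS1
import Pool.Agent.Helper7.BG.M_CS2
import Pool.Agent.Helper82.BG.M_EVI
import Pool.Agent.Helper67.BG.M_EVO
import Pool.Agent.Helper8.BG.M_NUM
import Pool.Agent.Helper71.BG.M_NMR
import Pool.Agent.Helper34.BG.M_FIN
import Pool.Agent.Helper41.BG.M_ADM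

/-!
# Project BG: bounded gaps 240, final theorems
-/

set_option autoImplicit false

namespace Pool.Agent.Helper27.BG

theorem pLm : StLm := Pool.Agent.Helper27.BG.hLAM
theorem pLin : StLin := Pool.Agent.Helper27.BG.hLin
theorem pBil : StBil := Pool.Agent.Helper27.BG.hBil
theorem pFrm : StFrm := Pool.Agent.Helper27.BG.hFrm
theorem pPrs : StPrs := Pool.Agent.Helper27.BG.hPRS
theorem pMaj : StMaj := (Pool.Agent.Helper27.BG.hMaj pLm)
theorem pMrg : StMrg := Pool.Agent.Helper27.BG.hMrg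
theorem pVbd : StVbd := Pool.Agent.Helper27.BG.hVbd
theorem pTup : StTup := Pool.Agent.Helper27.BG.hTup
theorem pTV2 : StTV2 := Pool.Agent.Helper27.BG.hTV2
theorem pSWs : StSWs := Pool.Agent.Helper27.BG.hSWs
theorem pDDw : StDDw := Pool.Agent.Helper27.BG.hDDw
theorem pMer : StMer := Pool.Agent.Helper32.BG.hMer
theorem pErr : StErr := Pool.Agent.Helper27.BG.hErr
theorem pOne : StOne := Pool.Agent.Helper27.BG.hOne
theorem pMul : StMul := Pool.Agent.Helper27.BG.hMul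
theorem pCl1 : StCl1 := Pool.Agent.Helper27.BG.hCl1
theorem pCl2 : StCl2 := Pool.Agent.Helper27.BG.hCl2
theorem pBVf : StBVf := (Pool.Agent.Helper27.BG.hBVf Pool.Agent.Helper27.BG.NT.bv)
theorem pEta : StEta := Pool.Agent.Helper27.BG.hEta
theorem pOkw : StOkw := Pool.Agent.Helper27.BG.hOkw
theorem pMin : StMin := Pool.Agent.Helper27.BG.hMin
theorem pVsq : StVsq := Pool.Agent.Helper27.BG.hVsq
theorem pBlf : StBlf := Pool.Agent.Helper27.BG.hBlf
theorem pMjf : StMjf := Pool.Agent.Helper27.BG.hMjf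
theorem pPtw : StPtw := Pool.Agent.Helper27.BG.hPtw
theorem pLow : StLow := Pool.Agent.Helper27.BG.hLow
theorem pTwo : StTwo := Pool.Agent.Helper27.BG.hTwo
theorem pIrw : StIrw := Pool.Agent.Helper27.BG.hIrw
theorem pCs1 : StCs1 := Pool.Agent.Helper27.BG.hCs1
theorem pCs2 : StCs2 := Pool.Agent.Helper27.BG.hCs2
theorem pEvi : StEvi := Pool.Agent.Helper82.BG.hEvi
theorem pEvo : StEvo := Pool.Agent.Helper27.BG.hEvo
theorem pNum : StNum := Pool.Agent.Helper27.BG.hNum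
theorem pNmr : StNmr := Pool.Agent.Helper27.BG.hNmr
theorem pFin : StFin := Pool.Agent.Helper27.BG.hFin
theorem pAdm : StAdm := Pool.Agent.Helper27.BG.hADM

theorem top_fin  : ∀ H : Finset ℕ, H.card = 49 →
    (∀ p : ℕ, p.Prime → ∃ r : ℕ, ∀ h ∈ H, ¬ p ∣ r + h) →
    ∃ h ∈ H, ∃ h' ∈ H, h < h' ∧ {n : ℕ | Cons2 n (h' - h)}.Infinite :=
  asm_fin pLin pBil pFrm pLm pPrs pMaj pMrg pVbd pTup pTV2 pSWs pDDw pMer pErr pOne pMul pCl1 pCl2 pBVf pEta pOkw pMin pVsq pBlf pMjf pPtw pLow pTwo pIrw pCs1 pCs2 pEvi pEvo pNum pNmr pFin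
    NT.pnt NT.bump Pool.Agent.Helper90.MT.mod

theorem top_240  : ∃ d : ℕ, 0 < d ∧ d ≤ 240 ∧ {n : ℕ | Cons2 n d}.Infinite :=
  asm_240 pAdm (top_fin )

end Pool.Agent.Helper27.BG
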